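import Pool.Agent.H.MP_15d263_co.A

namespace Pool.Agent.Results.MP_15d263_co.All

open Pool.Agent.H.MP_15d263_co

theorem result (x y : ℤ) (h : 2 ≤ max |x| |y|) : ∃ T, Idiomeric x y T := by
  by_cases e : x = 0
  · have e' : (y : ℝ) ≠ 0 := by
      norm_cast
      rintro rfl
      simp [e] at h
    refine ⟨_, pair 1 (-1 / y) y 0 x y h ?_⟩
    ext k
    fin_cases k <;> simp [P, pt, e, mul_div_cancel₀ _ e']
  · have e' : (x : ℝ) ≠ 0 := by exact_mod_cast e
    refine ⟨_, pair 0 ((y - 1) / x) x 0 x y h ?_⟩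
    ext k
    fin_cases k <;> simp [P, pt, mul_div_cancel₀ _ e']

end Pool.Agent.Results.MP_15d263_co.All
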