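import Pool.Agent.H.MP_15d263_co.A

namespace Pool.Agent.Results.MP_15d263_co.Grid

open Pool.Agent.H.MP_15d263_co

theorem result (x y : ℤ) (h : 2 ≤ max |x| |y|) :
    (∃ T, Idiomeric x y T ∧ OnGrid T) ↔ Odd x ∨ Odd y := by
  constructor
  · rintro ⟨T, a, b⟩
    by_contra q
    simp only [not_or, Int.not_odd_iff_even] at q
    exact no h q.1 q.2 a b
  · have e0 : ∀ u : ℤ × ℤ, P 0 0 u = pt u.1 u.2 := fun u => by
      ext k
      fin_cases k <;> simp [P, pt]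
    have e1 : ∀ u : ℤ × ℤ, P 1 0 u = pt u.2 u.1 := fun u => by
      ext k
      fin_cases k <;> simp [P, pt]
    rintro (⟨n, rfl⟩ | ⟨n, rfl⟩)
    · refine ⟨_, pair 1 0 y n _ _ h (e1 (_, _)).symm, ?_⟩
      rintro _ ⟨u, rfl⟩
      exact ⟨{(2 * u.2, u.1), (2 * u.2 + (2 * n + 1), u.1 + y)}, by simp [e1]⟩
    · refine ⟨_, pair 0 0 x n _ _ h (e0 (_, _)).symm, ?_⟩
      rintro _ ⟨u, rfl⟩
      exact ⟨{(u.1, 2 * u.2), (u.1 + x, 2 * u.2 + (2 * n + 1))}, by simp [e0]⟩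

end Pool.Agent.Results.MP_15d263_co.Grid
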